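import Pool.Agent.helper80.SV.Spec

set_option autoImplicit false

namespace Pool.Agent.SV

theorem GAL_exists {W I : Type} [AddCommGroup W] [Module ℂ W] (C : I → W → Prop)
    (hC : ∀ i, Gen (C i)) (s : Finset I) : ∃ Z, ∀ i ∈ s, C i Z := by
  classical
  induction s using Finset.induction_on with
  | empty => exact ⟨0, by simp⟩
  | insert a s ha ih =>
    obtain ⟨Z₀, hZ₀⟩ := ih
    obtain ⟨Z₁, hZ₁⟩ := (hC a).1
    have h1 : (⋃ i ∈ s, {t : ℂ | ¬ C i (Z₀ + t • (Z₁ - Z₀))}).Finite :=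
      s.finite_toSet.biUnion (fun i hi => (hC i).2 Z₀ Z₁ (hZ₀ i hi))
    have h2 : {t : ℂ | ¬ C a (Z₁ + t • (Z₀ - Z₁))}.Finite := (hC a).2 Z₁ Z₀ hZ₁
    have h3 : ((fun t : ℂ => 1 - t) '' {t : ℂ | ¬ C a (Z₁ + t • (Z₀ - Z₁))}).Finite := h2.image _
    obtain ⟨t, ht⟩ := (h1.union h3).infinite_compl.nonempty
    rw [Set.mem_compl_iff, Set.mem_union, not_or] at ht
    refine ⟨Z₀ + t • (Z₁ - Z₀), fun i hi => ?_⟩
    rcases Finset.mem_insert.1 hi with rfl | hi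
    · by_contra hn
      refine ht.2 ⟨1 - t, ?_, by ring⟩
      have he : Z₁ + (1 - t) • (Z₀ - Z₁) = Z₀ + t • (Z₁ - Z₀) := by
        module
      change ¬ C i (Z₁ + (1 - t) • (Z₀ - Z₁))
      rw [he]
      exact hn
    · by_contra hn
      exact ht.1 (Set.mem_iUnion₂.2 ⟨i, hi, hn⟩)

theorem GAL : GAL_stmt := by
  intro W I _ _ _ C hC
  have : Fintype I := Fintype.ofFinite I
  refine ⟨?_, ?_⟩
  · obtain ⟨Z, hZ⟩ := GAL_exists C hC Finset.univ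
    exact ⟨Z, fun i => hZ i (Finset.mem_univ i)⟩
  · intro Z₀ Z₁ h0
    have h1 : (⋃ i, {t : ℂ | ¬ C i (Z₀ + t • (Z₁ - Z₀))}).Finite :=
      Set.finite_iUnion (fun i => (hC i).2 Z₀ Z₁ (h0 i))
    refine h1.subset ?_
    intro t ht
    have ht' : ¬ ∀ i, C i (Z₀ + t • (Z₁ - Z₀)) := ht
    obtain ⟨i, hi⟩ := not_forall.1 ht'
    exact Set.mem_iUnion.2 ⟨i, hi⟩

end Pool.Agent.SV
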