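import Pool.Agent.helper65.SV.SpecE

set_option autoImplicit false

namespace Pool.Agent.SV

/-- the parity of a cell -/
def PC2_pr {K : Type} [Fintype K] (x : Cell (fun _ : K => 1)) : ZMod 2 :=
  ∑ i, (show ZMod 2 from x i)

theorem PC2_z1 : ∀ a : ZMod 2, (if a ≠ 0 then (1 : ZMod 2) else 0) = a := by decide

theorem PC2_z2 : ∀ a b : ZMod 2, -a + b = a - b := by decide

theorem PC2_z3 : ∀ α β ε : ZMod 2, ((1 : ℕ) : ZMod 2) = α - β → ¬ (α = ε) → β = ε := by decide

theorem PC2_z4 : ∀ ε : ZMod 2, ε = 0 ∨ ε = 1 := by decide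

theorem PC2_norm {K : Type} [Fintype K] [DecidableEq K] (x : K → ZMod 2) :
    ((hammingNorm x : ℕ) : ZMod 2) = ∑ i, x i := by
  unfold hammingNorm
  rw [Finset.card_filter]
  push_cast
  exact Finset.sum_congr rfl fun i _ => PC2_z1 (x i)

theorem PC2_norm' {K : Type} [Fintype K] [DecidableEq K] (x : Cell (fun _ : K => 1)) :
    ((hammingNorm x : ℕ) : ZMod 2) = PC2_pr x := PC2_norm (K := K) x

theorem PC2_pr_add {K : Type} [Fintype K] (x y : Cell (fun _ : K => 1)) :
    PC2_pr (x + y) = PC2_pr x + PC2_pr y := by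
  unfold PC2_pr
  rw [← Finset.sum_add_distrib]
  rfl

theorem PC2_pr_sub {K : Type} [Fintype K] (x y : Cell (fun _ : K => 1)) :
    PC2_pr (x - y) = PC2_pr x - PC2_pr y := by
  unfold PC2_pr
  rw [← Finset.sum_sub_distrib]
  rfl

theorem PC2_dist {K : Type} [Fintype K] [DecidableEq K] (x y : Cell (fun _ : K => 1)) :
    ((hammingDist x y : ℕ) : ZMod 2) = PC2_pr x - PC2_pr y := by
  rw [hammingDist_eq_hammingNorm, PC2_norm', PC2_pr_add]
  have h1 : PC2_pr (-x) = - PC2_pr x := by
    unfold PC2_pr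
    rw [← Finset.sum_neg_distrib]
    rfl
  rw [h1]
  exact PC2_z2 _ _

/-- the elements of weight two -/
def PC2_S (K : Type) [Fintype K] [DecidableEq K] : Set (Cell (fun _ : K => 1)) :=
  {γ | hammingNorm γ = 2}

/-- the parity as a homomorphism -/
def PC2_hom (K : Type) [Fintype K] : Cell (fun _ : K => 1) →+ ZMod 2 where
  toFun := PC2_pr
  map_zero' := by
    unfold PC2_pr
    exact Finset.sum_const_zero
  map_add' := PC2_pr_add

theorem PC2_hom_apply {K : Type} [Fintype K] (x : Cell (fun _ : K => 1)) :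
    PC2_hom K x = PC2_pr x := rfl

theorem PC2_single {K : Type} [Fintype K] [DecidableEq K] (i j : K) (h : i ≠ j) :
    hammingNorm (Pi.single i 1 - Pi.single j 1 : K → ZMod 2) = 2 := by
  unfold hammingNorm
  have h1 : (Finset.univ.filter fun k => (Pi.single i 1 - Pi.single j 1 : K → ZMod 2) k ≠ 0) =
      {i, j} := by
    ext k
    simp only [Finset.mem_filter, Finset.mem_univ, true_and, Pi.sub_apply, Finset.mem_insert,
      Finset.mem_singleton]
    by_cases hi : k = i
    · subst hi
      rw [Pi.single_eq_same, Pi.single_eq_of_ne h]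
      simp
    · by_cases hj : k = j
      · subst hj
        rw [Pi.single_eq_same, Pi.single_eq_of_ne hi]
        simp
      · rw [Pi.single_eq_of_ne hi, Pi.single_eq_of_ne hj]
        simp [hi, hj]
  rw [h1, Finset.card_pair h]

theorem PC2_zsmul {K : Type} [Fintype K] [DecidableEq K] (x : K → ZMod 2) (i : K) :
    x = ∑ j, (x j).val • (Pi.single j 1 - Pi.single i 1 : K → ZMod 2) +
      (∑ j, x j).val • (Pi.single i 1 : K → ZMod 2) := by
  have key : ∀ a : ZMod 2, ∀ b : ZMod 2, a.val • b = a * b := by decide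
  ext k
  rw [Pi.add_apply, Finset.sum_apply, Pi.smul_apply, key]
  simp only [Pi.smul_apply, key, Pi.sub_apply]
  have h1 : ∀ j, x j * ((Pi.single j 1 : K → ZMod 2) k - (Pi.single i 1 : K → ZMod 2) k) =
      x j * (Pi.single j 1 : K → ZMod 2) k - x j * (Pi.single i 1 : K → ZMod 2) k := fun j => by ring
  simp_rw [h1]
  rw [Finset.sum_sub_distrib, ← Finset.sum_mul, sub_add_cancel]
  have h2 : ∀ j, x j * (Pi.single j 1 : K → ZMod 2) k = if k = j then x j else 0 := by
    intro j
    by_cases h : k = j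
    · subst h
      rw [Pi.single_eq_same, if_pos rfl, mul_one]
    · rw [Pi.single_eq_of_ne h, if_neg h, mul_zero]
  simp_rw [h2]
  rw [Finset.sum_ite_eq Finset.univ k, if_pos (Finset.mem_univ _)]

theorem PC2_closure {K : Type} [Fintype K] [DecidableEq K] [Nonempty K]
    (x : Cell (fun _ : K => 1)) :
    x ∈ AddSubgroup.closure (PC2_S K) ↔ PC2_pr x = 0 := by
  constructor
  · intro h
    have h1 : AddSubgroup.closure (PC2_S K) ≤ (PC2_hom K).ker := by
      rw [AddSubgroup.closure_le]
      intro y hy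
      have hy' : hammingNorm y = 2 := hy
      have h2 := PC2_norm' y
      rw [hy'] at h2
      change PC2_hom K y = 0
      rw [PC2_hom_apply, ← h2]
      decide
    exact h1 h
  · intro h
    obtain ⟨i⟩ := ‹Nonempty K›
    have h1 := PC2_zsmul (K := K) x i
    have h2 : (∑ j, (show ZMod 2 from x j)) = 0 := h
    have h3 : (x : K → ZMod 2) = ∑ j, (show ZMod 2 from x j).val •
        (Pi.single j 1 - Pi.single i 1 : K → ZMod 2) := by
      refine h1.trans ?_
      rw [h2]
      simp
    have h4 : x = ∑ j, (show ZMod 2 from x j).val •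
        (show Cell (fun _ : K => 1) from (Pi.single j 1 - Pi.single i 1 : K → ZMod 2)) := h3
    rw [h4]
    refine AddSubgroup.sum_mem _ fun j _ => ?_
    refine AddSubgroup.nsmul_mem _ ?_ _
    by_cases hji : j = i
    · subst hji
      have h5 : (show Cell (fun _ : K => 1) from (Pi.single j 1 - Pi.single j 1 : K → ZMod 2)) = 0 :=
        sub_self (Pi.single j 1 : K → ZMod 2)
      rw [h5]
      exact AddSubgroup.zero_mem _
    · exact AddSubgroup.subset_closure (PC2_single j i hji)

theorem PC2_ind {Γ : Type} [Fintype Γ] [DecidableEq Γ] (B : Finset Γ) (A : Finset Γ) :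
    ∑ x ∈ A, (if x ∈ B then (1 : ℤ) else 0) = (A ∩ B).card := by
  rw [Finset.sum_ite_mem, Finset.sum_const, nsmul_eq_mul, mul_one]

/-- the class of parity `ε` -/
def PC2_cl (K : Type) [Fintype K] [DecidableEq K] (ε : ZMod 2) : Finset (Cell (fun _ : K => 1)) :=
  Finset.univ.filter fun x => PC2_pr x = ε

theorem PC2_mem_cl {K : Type} [Fintype K] [DecidableEq K] {ε : ZMod 2}
    {x : Cell (fun _ : K => 1)} : x ∈ PC2_cl K ε ↔ PC2_pr x = ε := by
  simp [PC2_cl]

theorem PC2_pr_single {K : Type} [Fintype K] [DecidableEq K] (i : K) :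
    PC2_pr (show Cell (fun _ : K => 1) from (Pi.single i 1 : K → ZMod 2)) = 1 := by
  change ∑ j, (Pi.single i 1 : K → ZMod 2) j = 1
  rw [Finset.sum_pi_single' i (1 : ZMod 2) Finset.univ, if_pos (Finset.mem_univ _)]

theorem PC2_card_cl {K : Type} [Fintype K] [DecidableEq K] [Nonempty K] (ε : ZMod 2) :
    (PC2_cl K ε).card = (PC2_cl K (ε + 1)).card := by
  obtain ⟨i⟩ := ‹Nonempty K›
  set e : Cell (fun _ : K => 1) := (Pi.single i 1 : K → ZMod 2) with he
  have hpe : PC2_pr e = 1 := PC2_pr_single i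
  refine Finset.card_bij (fun x _ => x + e) ?_ ?_ ?_
  · intro x hx
    rw [PC2_mem_cl] at hx ⊢
    rw [PC2_pr_add, hx, hpe]
  · intro x _ y _ h
    exact add_right_cancel h
  · intro y hy
    rw [PC2_mem_cl] at hy
    refine ⟨y - e, ?_, sub_add_cancel y e⟩
    rw [PC2_mem_cl, PC2_pr_sub, hy, hpe, add_sub_cancel_right]

theorem PC2_star {K : Type} [Fintype K] [DecidableEq K] (a : Cell (fun _ : K => 1))
    (hN : (Finset.univ.filter (fun y => hammingDist a y = 1)).card = Fintype.card K) (ε : ZMod 2) :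
    ∑ x ∈ PC2_cl K ε, ((if hammingDist a x ≤ 1 then (1 : ℤ) else 0) + if x = a then 1 else 0) =
      if PC2_pr a = ε then 2 else (Fintype.card K : ℤ) := by
  rw [Finset.sum_add_distrib]
  by_cases h : PC2_pr a = ε
  · rw [if_pos h]
    have h1 : ∀ x ∈ PC2_cl K ε, (if hammingDist a x ≤ 1 then (1 : ℤ) else 0) =
        if x = a then 1 else 0 := by
      intro x hx
      rw [PC2_mem_cl] at hx
      by_cases hxa : x = a
      · subst hxa
        rw [hammingDist_self, if_pos (Nat.zero_le _), if_pos rfl]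
      · rw [if_neg hxa, if_neg]
        intro hle
        have h2 := PC2_dist a x
        rw [h, hx, sub_self] at h2
        have h3 : hammingDist a x ≠ 0 := fun h0 => hxa (hammingDist_eq_zero.1 h0).symm
        have h4 : hammingDist a x = 1 := by omega
        rw [h4] at h2
        revert h2
        decide
    rw [Finset.sum_congr rfl h1]
    have h5 : ∑ x ∈ PC2_cl K ε, (if x = a then (1 : ℤ) else 0) = 1 := by
      rw [Finset.sum_ite_eq' (PC2_cl K ε) a (fun _ => (1 : ℤ)), if_pos (PC2_mem_cl.2 h)]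
    rw [h5]
    norm_num
  · rw [if_neg h]
    have h5 : ∑ x ∈ PC2_cl K ε, (if x = a then (1 : ℤ) else 0) = 0 := by
      rw [Finset.sum_ite_eq' (PC2_cl K ε) a (fun _ => (1 : ℤ)), if_neg (fun h' => h (PC2_mem_cl.1 h'))]
    rw [h5, add_zero, Finset.sum_boole]
    have h6 : (PC2_cl K ε).filter (fun x => hammingDist a x ≤ 1) =
        Finset.univ.filter (fun y => hammingDist a y = 1) := by
      ext x
      rw [Finset.mem_filter, PC2_mem_cl, Finset.mem_filter]
      constructor
      · rintro ⟨hx, hle⟩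
        refine ⟨Finset.mem_univ _, ?_⟩
        have h3 : hammingDist a x ≠ 0 := fun h0 => h (by rw [hammingDist_eq_zero.1 h0, hx])
        omega
      · rintro ⟨-, h1⟩
        refine ⟨?_, h1.le⟩
        have h2 := PC2_dist a x
        rw [h1] at h2
        exact PC2_z3 _ _ _ h2 h
    rw [h6, hN]

/-- PC2 -/
theorem PC2 (hPSP : PSP_stmt) (hPCA : PCA_stmt) (hPNB : PNB_stmt) : PC2_stmt := by
  intro K _ _ n hK hn r₀
  obtain rfl : n = fun _ => 1 := funext hn
  have hne : Nonempty K := by
    rw [← Fintype.card_pos_iff]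
    omega
  obtain ⟨i₁⟩ := id hne
  obtain ⟨hN1, -, -, hcard⟩ := hPNB K (fun _ => 1)
  have hNN : ∀ a : Cell (fun _ : K => 1),
      (Finset.univ.filter (fun y => hammingDist a y = 1)).card = Fintype.card K := by
    intro a
    rw [hN1 a]
    simp
  set e : Cell (fun _ : K => 1) := (Pi.single i₁ 1 : K → ZMod 2) with he
  have hpe : PC2_pr e = 1 := PC2_pr_single i₁
  have hp0 : PC2_pr (0 : Cell (fun _ : K => 1)) = 0 := (PC2_hom K).map_zero
  -- the classes
  have hV01 : (PC2_cl K 0).card = (PC2_cl K 1).card := PC2_card_cl 0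
  have hunion : (PC2_cl K 0).card + (PC2_cl K 1).card = Fintype.card (Cell (fun _ : K => 1)) := by
    rw [← Finset.card_union_of_disjoint, ← Finset.card_univ]
    · congr 1
      ext x
      rw [Finset.mem_union, PC2_mem_cl, PC2_mem_cl]
      refine ⟨fun _ => Finset.mem_univ _, fun _ => ?_⟩
      generalize PC2_pr x = β
      revert β
      decide
    · rw [Finset.disjoint_left]
      intro x h0 h1
      rw [PC2_mem_cl] at h0 h1
      rw [h0] at h1
      revert h1
      decide
  have hcard2 : Fintype.card (Cell (fun _ : K => 1)) = 2 ^ Fintype.card K := by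
    rw [hcard, Finset.prod_const, Finset.card_univ]
  set p : ℕ := Fintype.card K with hp
  set s : ℕ := r₀ / 2 with hs
  set s' : ℕ := r₀ - s with hs'
  set V : ℕ := (PC2_cl K 0).card with hV
  have hV1 : (PC2_cl K 1).card = V := hV01.symm
  have hVp : (p = 3 ∧ V = 4) ∨ (p = 4 ∧ V = 8) := by
    rw [hV1, hcard2] at hunion
    rcases hK with h | h
    · rw [h] at hunion
      left
      exact ⟨h, by omega⟩
    · rw [h] at hunion
      right
      exact ⟨h, by omega⟩
  set E : ℕ := 2 * s + p * s' with hE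
  set O : ℕ := p * s + 2 * s' with hO
  set q : ℕ := O / V with hq
  have hbd : q * V ≤ E ∧ E ≤ q * V + V ∧ q * V ≤ O ∧ O ≤ q * V + V := by
    rcases hVp with ⟨h1, h2⟩ | ⟨h1, h2⟩
    · rw [h1] at hE hO
      rw [h2] at hq ⊢
      omega
    · rw [h1] at hE hO
      rw [h2] at hq ⊢
      omega
  obtain ⟨hb1, hb2, hb3, hb4⟩ := hbd
  obtain ⟨B0, hB0, hB0c⟩ := Finset.exists_subset_card_eq (s := PC2_cl K 0) (n := E - q * V)
    (by rw [← hV]; omega)
  obtain ⟨B1, hB1, hB1c⟩ := Finset.exists_subset_card_eq (s := PC2_cl K 1) (n := O - q * V)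
    (by rw [hV1]; omega)
  have hdis01 : ∀ x, x ∈ PC2_cl K 0 → x ∈ PC2_cl K 1 → False := by
    intro x h0 h1
    rw [PC2_mem_cl] at h0 h1
    rw [h0] at h1
    revert h1
    decide
  have hI0 : PC2_cl K 0 ∩ (B0 ∪ B1) = B0 := by
    ext x
    rw [Finset.mem_inter, Finset.mem_union]
    constructor
    · rintro ⟨h0, h | h⟩
      · exact h
      · exact (hdis01 x h0 (hB1 h)).elim
    · intro h
      exact ⟨hB0 h, Or.inl h⟩
  have hI1 : PC2_cl K 1 ∩ (B0 ∪ B1) = B1 := by
    ext x
    rw [Finset.mem_inter, Finset.mem_union]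
    constructor
    · rintro ⟨h0, h | h⟩
      · exact (hdis01 x (hB0 h) h0).elim
      · exact h
    · intro h
      exact ⟨hB1 h, Or.inr h⟩
  set B := B0 ∪ B1 with hB
  set base : Cell (fun _ : K => 1) → ℤ := fun c =>
    (s : ℤ) * (if c = 0 then 1 else 0) + (s' : ℤ) * (if c = e then 1 else 0) with hbase
  set st : Cell (fun _ : K => 1) → Cell (fun _ : K => 1) → ℤ := fun a x =>
    (if hammingDist a x ≤ 1 then (1 : ℤ) else 0) + if x = a then 1 else 0 with hst
  set u : Cell (fun _ : K => 1) → ℤ := fun x => ((q : ℤ) + if x ∈ B then 1 else 0) -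
    ((s : ℤ) * st 0 x + (s' : ℤ) * st e x) with hu
  have hclsum : ∀ ε : ZMod 2, ∑ x ∈ PC2_cl K ε, u x = 0 := by
    intro ε
    simp only [hu]
    rw [Finset.sum_sub_distrib, Finset.sum_add_distrib, Finset.sum_add_distrib, ← Finset.mul_sum,
      ← Finset.mul_sum, PC2_ind]
    have hs0 := PC2_star (0 : Cell (fun _ : K => 1)) (hNN 0) ε
    have hs1 := PC2_star e (hNN e) ε
    have hs0' : ∑ x ∈ PC2_cl K ε, st 0 x = if PC2_pr (0 : Cell (fun _ : K => 1)) = ε then 2
      else (p : ℤ) := hs0
    have hs1' : ∑ x ∈ PC2_cl K ε, st e x = if PC2_pr e = ε then 2 else (p : ℤ) := hs1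
    rw [hs0', hs1', hp0, hpe, Finset.sum_const, nsmul_eq_mul]
    rcases PC2_z4 ε with rfl | rfl
    · rw [if_pos rfl, if_neg (by decide), hI0, hB0c, ← hV, Nat.cast_sub hb1]
      rw [hE]
      push_cast
      ring
    · rw [if_neg (by decide), if_pos rfl, hI1, hB1c, hV1, Nat.cast_sub hb3]
      rw [hO]
      push_cast
      ring
  obtain ⟨μ, hμS, hμu⟩ := hPSP (Cell (fun _ : K => 1)) (PC2_S K) u (by
    intro x A hA
    have hAu : A = PC2_cl K (PC2_pr x) := by
      ext y
      rw [hA y, PC2_closure, PC2_mem_cl, PC2_pr_sub, sub_eq_zero]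
    rw [hAu, hclsum])
  set M : Cell (fun _ : K => 1) → Cell (fun _ : K => 1) → ℤ := fun c γ => μ c γ +
    if γ = 0 then (base c - ∑ γ', μ c γ') else 0 with hM
  have hMS : ∀ c γ, γ ∉ ({0} ∪ PC2_S K : Set (Cell (fun _ : K => 1))) → M c γ = 0 := by
    intro c γ hγ
    have h1 : γ ≠ 0 := by
      rintro rfl
      exact hγ (Or.inl rfl)
    have h2 : γ ∉ PC2_S K := fun h => hγ (Or.inr h)
    simp only [hM]
    rw [if_neg h1, hμS c γ h2, add_zero]
  have hMsum : ∀ c, ∑ γ, M c γ = base c := by
    intro c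
    simp only [hM]
    rw [Finset.sum_add_distrib, Finset.sum_ite_eq' Finset.univ (0 : Cell (fun _ : K => 1))
      (fun _ => (base c - ∑ γ', μ c γ')), if_pos (Finset.mem_univ _)]
    ring
  have hbsum : ∀ F : Cell (fun _ : K => 1) → ℤ,
      ∑ c, F c * base c = (s : ℤ) * F 0 + (s' : ℤ) * F e := by
    intro F
    simp only [hbase]
    have h1 : ∀ c : Cell (fun _ : K => 1), F c * ((s : ℤ) * (if c = 0 then 1 else 0) +
        (s' : ℤ) * (if c = e then 1 else 0)) = (if c = 0 then (s : ℤ) * F c else 0) +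
        (if c = e then (s' : ℤ) * F c else 0) := by
      intro c
      split_ifs <;> ring
    simp_rw [h1]
    rw [Finset.sum_add_distrib,
      Finset.sum_ite_eq' Finset.univ (0 : Cell (fun _ : K => 1)) (fun c => (s : ℤ) * F c),
      Finset.sum_ite_eq' Finset.univ e (fun c => (s' : ℤ) * F c),
      if_pos (Finset.mem_univ _), if_pos (Finset.mem_univ _)]
  obtain ⟨r, c, γ, A, hγ, hdvd, hwt⟩ := hPCA K (fun _ => 1) ({0} ∪ PC2_S K) M hMS
  refine ⟨r, c, γ, A + q, ?_, ?_, ?_⟩
  · intro l
    rcases hγ l with h | h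
    · exact Or.inl h
    · have h2 : hammingNorm (γ l) = 2 := h
      refine Or.inr ⟨h2.ge, ?_⟩
      unfold lamE
      rw [h2, Finset.sum_const, nsmul_eq_mul]
      have h3 : 0 < (Finset.univ.filter (fun i => γ l i = 0)).card := by
        have h4 := Finset.card_filter_add_card_filter_not (s := (Finset.univ : Finset K))
          (fun i => γ l i = 0)
        have h5 : (Finset.univ.filter (fun i => ¬ γ l i = 0)).card = 2 := h2
        rw [h5, Finset.card_univ, ← hp] at h4
        rcases hVp with ⟨h6, -⟩ | ⟨h6, -⟩ <;> omega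
      push_cast
      have h7 : (0 : ℤ) < ((Finset.univ.filter (fun i => γ l i = 0)).card : ℤ) := by exact_mod_cast h3
      intro h8
      linarith
  · have h1 : ∑ c, ∑ γ, M c γ = (r₀ : ℤ) := by
      simp_rw [hMsum]
      have h2 := hbsum (fun _ => 1)
      simp only [one_mul, mul_one] at h2
      rw [h2, hs']
      have : s ≤ r₀ := by omega
      push_cast [Nat.cast_sub this]
      ring
    rw [h1] at hdvd
    have h2 : (r₀ : ℤ) ≡ (r : ℤ) [ZMOD (Fintype.card (Cell (fun _ : K => 1)) : ℤ)] :=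
      Int.modEq_iff_dvd.mpr hdvd
    have h3 : r₀ ≡ r [MOD Fintype.card (Cell (fun _ : K => 1))] := by exact_mod_cast h2
    exact h3.symm
  · intro x
    have h1 := hwt x
    have h2 : ∑ c, ∑ γ, (if hammingDist c x ≤ 1 then M c γ else 0) =
        (s : ℤ) * (if hammingDist 0 x ≤ 1 then 1 else 0) +
        (s' : ℤ) * (if hammingDist e x ≤ 1 then 1 else 0) := by
      have h3 : ∀ c : Cell (fun _ : K => 1), ∑ γ, (if hammingDist c x ≤ 1 then M c γ else 0) =
          (if hammingDist c x ≤ 1 then (1 : ℤ) else 0) * base c := by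
        intro c
        by_cases hc : hammingDist c x ≤ 1
        · simp only [if_pos hc]
          rw [hMsum c, one_mul]
        · simp only [if_neg hc]
          rw [Finset.sum_const_zero, zero_mul]
      simp_rw [h3]
      exact hbsum (fun c => if hammingDist c x ≤ 1 then (1 : ℤ) else 0)
    have h4 : ∑ γ, M (x + γ) γ = base x + u x := by
      rw [hμu x]
      simp only [hM]
      rw [Finset.sum_add_distrib, Finset.sum_ite_eq' Finset.univ (0 : Cell (fun _ : K => 1))
        (fun γ => (base (x + γ) - ∑ γ', μ (x + γ) γ')), if_pos (Finset.mem_univ _),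
        Finset.sum_sub_distrib, add_zero]
      ring
    rw [h2, h4] at h1
    have h5 : (wt c γ x : ℤ) = A + q + if x ∈ B then 1 else 0 := by
      rw [h1]
      simp only [hu, hbase, hst]
      ring
    by_cases hxB : x ∈ B
    · right
      rw [if_pos hxB] at h5
      have : wt c γ x = A + q + 1 := by exact_mod_cast h5
      rw [this]
    · left
      rw [if_neg hxB, add_zero] at h5
      exact_mod_cast h5

end Pool.Agent.SV
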